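import Mathlib
import Pool.Agent.MP_1bbe3d_pr.NoEarly

set_option autoImplicit false

namespace Pool.Agent.Results.MP_1bbe3d_pr.Counterexample

open Pool.Agent.MP_1bbe3d_pr

/-- Q1 is false for every sample size: for all `0 < τ < η` and `2 ≤ n₂ ≤ n` there is a nonempty
open set of admissible data with `n₁ = 0` on which the log-likelihood has no maximum. -/
theorem result :
    ∀ (n n₂ : ℕ) (τ η : ℝ), 0 < τ → τ < η → 2 ≤ n₂ → n₂ ≤ n →
      ∃ U : Set (Fin (0 + n₂) → ℝ), IsOpen U ∧ U.Nonempty ∧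
        ∀ t ∈ U, Admissible n 0 n₂ τ η t ∧ ¬ MLEExists n 0 n₂ τ η t :=
  fun n n₂ τ η hτ hτη hn₂ hn => no_early n n₂ τ η hτ hτη hn₂ hn

end Pool.Agent.Results.MP_1bbe3d_pr.Counterexample
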