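import Pool.Agent.MP_1bbe3d_pr.Early

set_option autoImplicit false

namespace Pool.Agent.Results.MP_1bbe3d_pr.EarlyFailureCriterion

open Pool.Agent.MP_1bbe3d_pr

/-- When both stress levels see a failure, the log-likelihood attains its maximum exactly when
the first failure time is strictly smaller than `τ`. -/
theorem result :
    ∀ (n n₁ n₂ : ℕ) (τ η : ℝ) (t : Fin (n₁ + n₂) → ℝ) (h₁ : 1 ≤ n₁), 1 ≤ n₂ → 0 < τ → τ < η →
      Admissible n n₁ n₂ τ η t →
      (MLEExists n n₁ n₂ τ η t ↔ t ⟨0, Nat.lt_add_right n₂ h₁⟩ < τ) := by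
  intro n n₁ n₂ τ η t h₁ h₂ hτ hτη h
  constructor
  · rintro ⟨α, θ, β, -, -, -, hmax⟩
    by_contra hlt
    have hall : ∀ i : Fin (n₁ + n₂), i.val < n₁ → t i = τ := fun i hi =>
      le_antisymm (h.2.2.1 i hi).2
        ((not_lt.1 hlt).trans (h.2.1.monotone (show (0 : ℕ) ≤ i.val from Nat.zero_le _)))
    obtain ⟨α', θ', β', hα', hθ', hβ', hbig⟩ :=
      unbounded_of_eq h hτ hτη h₁ hall (logLik n n₁ n₂ τ η t α θ β)
    exact absurd (hmax α' θ' β' hα' hθ' hβ') (not_le.2 hbig)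
  · intro hlt
    exact exists_of_lt h hτ hτη h₂ ⟨0, Nat.lt_add_right n₂ h₁⟩ h₁ hlt

end Pool.Agent.Results.MP_1bbe3d_pr.EarlyFailureCriterion
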